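import Pool.Agent.Helper6.CS.Goals1

/-!
# Project CS: L1 (PS sets are partition regular)
-/

namespace Pool.Agent.Helper96.CS

open Pool.Agent.Helper6.CS

theorem t_L1 : G_L1 := by
  intro M _ b D₁ D₂ ⟨p, hp⟩
  by_cases h2 : PS b D₂
  · exact Or.inr h2
  left
  unfold PS at h2
  push Not at h2
  obtain ⟨q', hq'⟩ := h2 p
  refine ⟨p + q', fun q => ?_⟩
  obtain ⟨y, hy, hyq⟩ := hp (q + q')
  refine ⟨y, hy, fun g hg hgq => ?_⟩
  obtain ⟨g', hg', hgl, hno⟩ := hq' (g ++ y) (Over.append_iff.2 ⟨hg, hy⟩)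
  obtain ⟨t, ht, htp, hD⟩ := hyq (g' ++ g) (Over.append_iff.2 ⟨hg', hg⟩) (by
    rw [Wd.len_append, add_comm]
    exact add_le_add hgq hgl)
  refine ⟨t ++ g', Over.append_iff.2 ⟨ht, hg'⟩, ?_, ?_⟩
  · rw [Wd.len_append]
    exact add_le_add htp hgl
  · have e : t ++ (g' ++ g) ++ y = t ++ g' ++ (g ++ y) := by
      simp only [Wd.append_assoc]
    have e2 : t ++ (g' ++ g) ++ y = t ++ g' ++ g ++ y := by
      simp only [Wd.append_assoc]
    rcases hD with h | h
    · rwa [e2] at h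
    · rw [e] at h
      exact absurd h (hno t ht htp)

end Pool.Agent.Helper96.CS
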